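import Pool.Agent.X65.ECC.Time

/-!
# GlobalECC has a constant-constant bicriteria approximation

Problem MP_120f76_lc, Q1. The definitions of the problem are in `Pool.Agent.X65.ECC.Alg`:

* an instance is `(V, C, E, b)`: list of nodes, list of colours, list of hyperedges (node list,
  colour), budget; `IsInstance V C E` says that the nodes are distinct, that there is a colour if
  there is a node, and that every hyperedge is a nonempty list of nodes with a colour in `C`;
* `IsAssignment V C S`: the set `S v` of colours of each node `v` is nonempty and contained in `C`;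
* `cost V S = ∑_v (|S v| - 1)`; `mistakes E S` is the number of the hyperedges with a node which
  does not have their colour;
* `colours s v` is the set of the colours `c` with `(v, c)` in the list `s`, the output format of
  the algorithm.

Polynomial time is `Pool.Agent.NPC.PolyTime` (Mathlib's `TM2ComputableInPolyTime` for functions on
bit strings); `bits` is the standard code of structured data (numbers in binary).
-/

set_option autoImplicit false

namespace Pool.Agent.Results.MP_120f76_lc.ConstantConstant

open Pool.Agent.NPC Pool.Agent.X65.ECC

/-- `A` is a bicriteria `(α, β)`-approximation for GlobalECC: it runs in polynomial time, and on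
every instance `(V, C, E, b)` its output is an assignment which uses a budget of at most `β b` and
makes at most `α` times as many mistakes as every assignment within the budget `b`, that is, at
most `α · OPT` mistakes. -/
def IsBicriteria (α β : ℚ) (A : List Bool → List Bool) : Prop :=
  PolyTime A ∧ ∀ (V C : List ℕ) (E : List (List ℕ × ℕ)) (b : ℕ), IsInstance V C E →
    ∃ s : List (ℕ × ℕ), A (bits (V, C, E, b)) = bits s ∧
      IsAssignment V C (colours s) ∧ (cost V (colours s) : ℚ) ≤ β * b ∧
      ∀ T : ℕ → Finset ℕ, IsAssignment V C T → cost V T ≤ b →
        (mistakes E (colours s) : ℚ) ≤ α * mistakes E T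

/-- **GlobalECC has constant-constant bicriteria approximations**: for every rational `β > 1` there
is a polynomial-time bicriteria `(2β/(β-1), β)`-approximation; for example `(4, 2)` and `(3, 3)`. -/
theorem result : (∀ β : ℚ, 1 < β → ∃ A : List Bool → List Bool,
      IsBicriteria (2 * β / (β - 1)) β A) ∧
    (∃ A : List Bool → List Bool, IsBicriteria 4 2 A) ∧
    (∃ A : List Bool → List Bool, IsBicriteria 3 3 A) := by
  have main : ∀ β : ℚ, 1 < β → ∃ A : List Bool → List Bool,
      IsBicriteria (2 * β / (β - 1)) β A := by
    intro β hβ
    have hpos : 0 < β - 1 := by linarith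
    set p : ℕ := (β - 1).den with hp
    set q : ℕ := (β - 1).num.toNat with hq
    have hp0 : 0 < p := (β - 1).den_pos
    have hnum : 0 < (β - 1).num := Rat.num_pos.2 hpos
    have hq0 : 0 < q := by omega
    have hβ' : β - 1 = (q : ℚ) / p := by
      have h1 : ((β - 1).num : ℚ) / ((β - 1).den : ℚ) = β - 1 := Rat.num_div_den _
      have h2 : ((β - 1).num : ℚ) = (q : ℚ) := by
        have : (β - 1).num = (q : ℤ) := by omega
        rw [this]
        simp
      rw [← h1, h2]
    have hpQ : (0 : ℚ) < p := by exact_mod_cast hp0
    have hqQ : (0 : ℚ) < q := by exact_mod_cast hq0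
    have hβ2 : β = ((p : ℚ) + q) / p := by
      have : β = 1 + (q : ℚ) / p := by linarith
      rw [this]
      field_simp
    have hα : 2 * β / (β - 1) = 2 * ((p : ℚ) + q) / q := by
      rw [hβ', hβ2]
      field_simp
    have h0 : NPC.Poly (fun y : List Bool × (List ℕ × List ℕ × List (List ℕ × ℕ) × ℕ) =>
        alg p q y.2) := (poly_alg p q).comp (NPC.Poly.snd NPC.Poly.id)
    have h1 : NPC.Poly (fun x : List Bool =>
        (unbits (List ℕ × List ℕ × List (List ℕ × ℕ) × ℕ) x).map (alg p q)) :=
      NPC.Poly.optMap_fp (h := fun _ y => alg p q y) poly_unbits h0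
    refine ⟨_, polyTime_opt h1, ?_⟩
    · intro V C E b hI
      obtain ⟨h1, h2, h3⟩ := alg_spec (b := b) hp0 hq0 hI
      refine ⟨alg p q (V, C, E, b), ?_, h1, ?_, ?_⟩
      · simp only [unbits_bits, Option.map_some]
      · have h4 : (p : ℚ) * cost V (colours (alg p q (V, C, E, b))) ≤ (p + q) * b := by
          exact_mod_cast h2
        rw [hβ2, div_mul_eq_mul_div, le_div_iff₀ hpQ]
        linarith
      · intro T hT hc
        have h4 : (q : ℚ) * mistakes E (colours (alg p q (V, C, E, b))) ≤
            2 * (p + q) * mistakes E T := by
          exact_mod_cast h3 T hT hc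
        rw [hα, div_mul_eq_mul_div, le_div_iff₀ hqQ]
        linarith
  refine ⟨main, ?_, ?_⟩
  · have h := main 2 (by norm_num)
    norm_num at h
    exact h
  · have h := main 3 (by norm_num)
    norm_num at h
    exact h

end Pool.Agent.Results.MP_120f76_lc.ConstantConstant
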